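import Mathlib
import Pool.Agent.H.MP_49092c_al.B

set_option autoImplicit false

namespace Pool.Agent.Results.MP_49092c_al.No

open Pool.Agent.H.MP_49092c_al MvPolynomial

noncomputable def gens : Set (S (Fin 4)) := {X 0 * X 1, X 0 * X 3, X 2 * X 1, X 2 * X 3}

noncomputable def th : S (Fin 4) →ₐ[ℚ] Polynomial (Polynomial ℚ) :=
  aeval ![Polynomial.C Polynomial.X, 0, 0, Polynomial.X]

lemma hq1 : (X 0 ^ 2 + X 1 ^ 2 : S (Fin 4)).IsHomogeneous 2 :=
  (isHomogeneous_X_pow _ _).add (isHomogeneous_X_pow _ _)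

lemma hq2 : (X 2 ^ 2 + X 3 ^ 2 : S (Fin 4)).IsHomogeneous 2 :=
  (isHomogeneous_X_pow _ _).add (isHomogeneous_X_pow _ _)

lemma gens_hom : ∀ t ∈ gens, t.IsHomogeneous 2 := by
  rintro _ (rfl | rfl | rfl | rfl) <;> exact (isHomogeneous_X _ _).mul (isHomogeneous_X _ _)

lemma th_I {f : S (Fin 4)} (hf : f ∈ Ideal.span gens) :
    ∃ c, th f = Polynomial.C Polynomial.X * Polynomial.X * c := by
  refine Submodule.span_induction
    (p := fun f _ => ∃ c, th f = Polynomial.C Polynomial.X * Polynomial.X * c) ?_ ⟨0, by simp⟩ ?_ ?_ hf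
  · rintro _ (rfl | rfl | rfl | rfl)
    · exact ⟨0, by simp [th]⟩
    · exact ⟨1, by simp [th]⟩
    · exact ⟨0, by simp [th]⟩
    · exact ⟨0, by simp [th]⟩
  · rintro a b _ _ ⟨c, hc⟩ ⟨d, hd⟩; exact ⟨c + d, by rw [map_add, hc, hd]; ring⟩
  · rintro a b _ ⟨c, hc⟩; exact ⟨th a * c, by rw [smul_eq_mul, map_mul, hc]; ring⟩

lemma th_prod {p : S (Fin 4)}
    (hp : p ∈ Ideal.span {X 0 ^ 2 + X 1 ^ 2, X 2 ^ 2 + X 3 ^ 2} * Ideal.span gens) :
    ((th p).coeff 2).coeff 2 = 0 := by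
  refine Submodule.mul_induction_on hp (fun h hh f hf => ?_) (fun a b ha hb => by simp [ha, hb])
  obtain ⟨a, b, rfl⟩ := Ideal.mem_span_pair.1 hh
  obtain ⟨c, hc⟩ := th_I hf
  have : th ((a * (X 0 ^ 2 + X 1 ^ 2) + b * (X 2 ^ 2 + X 3 ^ 2)) * f) =
      Polynomial.C (Polynomial.X ^ 3) * (th a * Polynomial.X * c) +
      Polynomial.X ^ 3 * (th b * Polynomial.C Polynomial.X * c) := by
    rw [map_mul, hc]
    simp [th]
    ring
  rw [this, Polynomial.coeff_add, Polynomial.coeff_C_mul, Polynomial.coeff_X_pow_mul', if_neg (by norm_num),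
    add_zero, Polynomial.coeff_X_pow_mul', if_neg (by norm_num)]

lemma ev_I {f : S (Fin 4)} (hf : f ∈ Ideal.span gens) (a b : ℚ) :
    eval ![a, 0, b, 0] f = 0 ∧ eval ![0, a, 0, b] f = 0 := by
  refine Submodule.span_induction
    (p := fun f _ => eval ![a, 0, b, 0] f = 0 ∧ eval ![0, a, 0, b] f = 0) ?_ (by simp) ?_ ?_ hf
  · rintro _ (rfl | rfl | rfl | rfl) <;> simp
  · rintro a b _ _ ⟨c, hc⟩ ⟨d, hd⟩; simp [*]
  · rintro a b _ ⟨c, hc⟩; simp [*]

lemma cubic {u : S (Fin 4)} (h3 : u.IsHomogeneous 3) (hI : u ∈ Ideal.span gens)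
    (hJ : u ∈ Ideal.span {X 0 ^ 2 + X 1 ^ 2, X 2 ^ 2 + X 3 ^ 2}) : u = 0 := by
  obtain ⟨a, b, e⟩ := Ideal.mem_span_pair.1 hJ
  have e2 := congrArg (hc 3) e
  rw [map_add, hc_mul 3 a hq1, hc_mul 3 b hq2, if_pos (by norm_num), if_pos (by norm_num), hc_same h3] at e2
  obtain ⟨c, hc'⟩ := lin_eq (hc_hom 1 a)
  obtain ⟨d, hd⟩ := lin_eq (hc_hom 1 b)
  norm_num at e2
  rw [← hc', ← hd] at e2
  have p1 := ev_I hI 1 0
  have p2 := ev_I hI 0 1
  have p3 := ev_I hI 1 1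
  have p4 := ev_I hI 1 (-1)
  rw [← e2] at p1 p2 p3 p4
  simp [Fin.sum_univ_four] at p1 p2 p3 p4
  have c0 : c 0 = 0 := by linarith [p1.1]
  have c1 : c 1 = 0 := by linarith [p1.2]
  have d2 : d 2 = 0 := by linarith [p2.1]
  have d3 : d 3 = 0 := by linarith [p2.2]
  have c2 : c 2 = 0 := by linarith [p3.1, p4.1]
  have c3 : c 3 = 0 := by linarith [p3.2, p4.2]
  have d0 : d 0 = 0 := by linarith [p3.1, p4.1]
  have d1 : d 1 = 0 := by linarith [p3.2, p4.2]
  rw [← e2]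
  simp only [Fin.sum_univ_four, c0, c1, c2, c3, d0, d1, d2, d3, zero_smul, add_zero, zero_mul]

theorem result :
    let J : Ideal (MvPolynomial (Fin 4) ℚ) := Ideal.span {X 0 ^ 2 + X 1 ^ 2, X 2 ^ 2 + X 3 ^ 2}
    let I₁ : Ideal (MvPolynomial (Fin 4) ℚ ⧸ J) :=
      Ideal.span {Ideal.Quotient.mk J (X 0), Ideal.Quotient.mk J (X 2)}
    let I₂ : Ideal (MvPolynomial (Fin 4) ℚ ⧸ J) :=
      Ideal.span {Ideal.Quotient.mk J (X 1), Ideal.Quotient.mk J (X 3)}
    UK J ∧ I₁ * I₂ ≠ ⊥ ∧ ¬ LinRes J 2 (I₁ * I₂) := by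
  intro J I₁ I₂
  let mk := Ideal.Quotient.mk J
  have prod : I₁ * I₂ = (Ideal.span gens).map mk := by
    rw [Ideal.span_pair_mul_span_pair, Ideal.map_span, gens]
    simp only [Set.image_insert_eq, Set.image_singleton, map_mul, mk]
  have nl : ¬ LinRes J 2 (I₁ * I₂) := by
    rintro ⟨b, y, D, y1, D1, sp, ex, _⟩
    have l1 : ∀ j, ∃ p : S (Fin 4), p.IsHomogeneous 2 ∧ p ∈ Ideal.span gens ∧ mk p = y j := by
      intro j
      obtain ⟨p, hp, e⟩ := y1 j
      have : y j ∈ (Ideal.span gens).map mk := prod ▸ sp ▸ Ideal.subset_span ⟨j, rfl⟩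
      obtain ⟨f, hf, e2⟩ := (Ideal.mem_map_iff_of_surjective mk Ideal.Quotient.mk_surjective).1 this
      have e3 := hc_span 2 2 (T := {X 0 ^ 2 + X 1 ^ 2, X 2 ^ 2 + X 3 ^ 2})
        (by rintro _ (rfl | rfl); exacts [hq1, hq2]) (Ideal.Quotient.eq.1 (e2.trans e.symm))
      rw [map_sub, hc_same hp] at e3
      exact ⟨hc 2 f, hc_hom _ _, hc_span 2 2 gens_hom hf, (Ideal.Quotient.eq.2 e3).trans e⟩
    choose Y Y1 Y2 Y3 using l1
    choose s s1 s2 using D1 0
    have s2' : ∀ i j, mk (s i j) = D 0 i j := s2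
    have row : ∀ i, ∑ j, s i j * Y j = 0 := by
      intro i
      refine cubic (IsHomogeneous.sum _ _ _ fun j _ => IsHomogeneous.mul (s1 i j) (Y1 j))
        (sum_mem fun j _ => Ideal.mul_mem_left _ _ (Y2 j)) (Ideal.Quotient.eq_zero_iff_mem.1 ?_)
      have := (ex (D 0 i)).2 ⟨Pi.single i 1, by simp; rfl⟩
      rw [Fintype.linearCombination_apply] at this
      rw [← this, map_sum]
      exact Finset.sum_congr rfl fun j _ => by rw [map_mul, smul_eq_mul, ← s2', ← Y3]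
    choose out hout using Ideal.Quotient.mk_surjective (I := J)
    have hout' : ∀ a, mk (out a) = a := hout
    have g : ∀ t ∈ gens, ∃ a : Fin (b 0) → S (Fin 4), ∑ j, a j * Y j - t ∈ J := by
      intro t ht
      have : mk t ∈ Ideal.span (Set.range y) :=
        sp ▸ prod ▸ Ideal.mem_map_of_mem _ (Ideal.subset_span ht)
      obtain ⟨a, ha⟩ := Ideal.mem_span_range_iff_exists_fun.1 this
      refine ⟨fun j => out (a j), Ideal.Quotient.eq.1 ?_⟩
      rw [map_sum]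
      refine Eq.trans (Finset.sum_congr rfl fun j _ => ?_) ha
      rw [map_mul, hout, ← Y3]
    have m2 : (X 0 * X 3 : S (Fin 4)) ∈ gens := by simp [gens]
    have m3 : (X 2 * X 1 : S (Fin 4)) ∈ gens := by simp [gens]
    obtain ⟨a, ha⟩ := g _ m2
    obtain ⟨a', ha'⟩ := g _ m3
    have q1 : (X 0 ^ 2 + X 1 ^ 2 : S (Fin 4)) ∈ J := Ideal.subset_span (by simp)
    have q2 : (X 2 ^ 2 + X 3 ^ 2 : S (Fin 4)) ∈ J := Ideal.subset_span (by simp)
    set t : Fin (b 0) → S (Fin 4) := fun j => X 0 * X 3 * a j - X 2 * X 1 * a' j with ht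
    have e1 : ∑ j, t j * Y j = (X 0 * X 3) ^ 2 - (X 2 * X 1) ^ 2 + (∑ j, a j * Y j - X 0 * X 3) * (X 0 * X 3)
        - (∑ j, a' j * Y j - X 2 * X 1) * (X 2 * X 1) := by
      have : ∑ j, t j * Y j = X 0 * X 3 * ∑ j, a j * Y j - X 2 * X 1 * ∑ j, a' j * Y j := by
        rw [Finset.mul_sum, Finset.mul_sum, ← Finset.sum_sub_distrib]
        exact Finset.sum_congr rfl fun j _ => by rw [ht]; ring
      rw [this]; ring
    obtain ⟨r, hr⟩ := (ex (fun j => mk (t j))).1 (by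
      rw [Fintype.linearCombination_apply]
      have : mk (∑ j, t j * Y j) = 0 := by
        rw [e1]
        refine Ideal.Quotient.eq_zero_iff_mem.2 (sub_mem (add_mem ?_ (J.mul_mem_right _ ha))
          (J.mul_mem_right _ ha'))
        convert sub_mem (J.mul_mem_left (X 3 ^ 2) q1) (J.mul_mem_left (X 1 ^ 2) q2) using 1
        ring
      rw [← this, map_sum]
      exact Finset.sum_congr rfl fun j _ => by rw [map_mul, smul_eq_mul, Y3])
    have k : ∀ j, t j - ∑ i, out (r i) * s i j ∈ J := by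
      intro j
      refine Ideal.Quotient.eq.1 ?_
      have := congrFun hr j
      simp only [Matrix.vecMulLinear_apply, Matrix.vecMul, dotProduct] at this
      rw [map_sum]
      refine this.symm.trans (Finset.sum_congr rfl fun i _ => ?_)
      rw [map_mul, hout, ← s2']
    have e2 : ∑ j, t j * Y j = ∑ j, (t j - ∑ i, out (r i) * s i j) * Y j := by
      simp only [sub_mul, Finset.sum_sub_distrib, Finset.sum_mul, mul_assoc]
      rw [Finset.sum_comm]
      simp only [← Finset.mul_sum, row, mul_zero, Finset.sum_const_zero, sub_zero]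
    have fin : ((X 0 * X 3) ^ 2 - (X 2 * X 1) ^ 2 : S (Fin 4)) ∈ J * Ideal.span gens := by
      have h1 : ∑ j, t j * Y j ∈ J * Ideal.span gens :=
        e2 ▸ sum_mem fun j _ => Ideal.mul_mem_mul (k j) (Y2 j)
      have h2 := Ideal.mul_mem_mul ha (Ideal.subset_span m2)
      have h3 := Ideal.mul_mem_mul ha' (Ideal.subset_span m3)
      convert add_mem (sub_mem h1 h2) h3 using 1
      rw [e1]; ring
    have := th_prod fin
    have e3 : th ((X 0 * X 3) ^ 2 - (X 2 * X 1) ^ 2) =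
        Polynomial.C (Polynomial.X ^ 2) * Polynomial.X ^ 2 := by
      simp [th]; ring
    rw [e3, Polynomial.coeff_C_mul_X_pow, if_pos rfl, Polynomial.coeff_X_pow, if_pos rfl] at this
    exact one_ne_zero this
  refine ⟨uk hq1 hq2 fun a h1 h2 => ?_, fun h => nl ?_, nl⟩
  · simp only [map_add, map_pow, eval_X] at h1 h2
    funext i
    fin_cases i <;> simp <;> nlinarith [sq_nonneg (a 0), sq_nonneg (a 1), sq_nonneg (a 2), sq_nonneg (a 3)]
  · rw [h]
    exact ⟨fun _ => 0, Fin.elim0, fun _ => 0, fun j => j.elim0, fun _ j => j.elim0, by simp,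
      fun t => ⟨fun _ => ⟨0, Subsingleton.elim _ _⟩, fun _ => by rw [Subsingleton.elim t 0, map_zero]⟩,
      fun _ t => ⟨fun _ => ⟨0, Subsingleton.elim _ _⟩, fun _ => Subsingleton.elim _ _⟩⟩

end Pool.Agent.Results.MP_49092c_al.No
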